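import Mathlib
import Pool.Agent.H90.BhDefs
import Pool.Agent.H90.BhD

namespace Pool.Agent.Results.MP_216d05_an.SmallDim

open Pool.Agent.H90.Bh

theorem result (H : Type) [NormedAddCommGroup H] [InnerProductSpace ℂ H] [CompleteSpace H]
    (hH : ¬FiniteDimensional ℂ H) : ∃ M : LMod (H →L[ℂ] H), Irr M ∧ ¬HasRes M 1 := main hH

end Pool.Agent.Results.MP_216d05_an.SmallDim
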